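import Pool.Agent.helper44.EX.Spec

/-!
# Project ex: (MP_70a088_an, MP_af9036_an), module SYM: the local symmetry
-/

set_option autoImplicit false

open Complex Metric Set Filter Topology MeasureTheory Pool.Agent.helper98.ILF

noncomputable section

namespace EX

/-- the common constant -/
theorem SYM_const (hKO1 : V3.KO1_stmt) (hKO3 : V3.KO3_stmt) (q : ℝ) (hq0 : 0 ≤ q) (hq1 : q < 1) :
    ∃ C : ℝ, 1 ≤ C ∧
      (∀ (G : ℂ → ℂ) (a : ℂ) (r : ℝ), 0 < r → DifferentiableOn ℂ G (ball a r) →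
        InjOn G (ball a r) → ball (G a) (r * ‖deriv G a‖ / C) ⊆ G '' ball a r) ∧
      (∀ (G : ℂ → ℂ) (a : ℂ) (r : ℝ), 0 < r → DifferentiableOn ℂ G (ball a r) →
        InjOn G (ball a r) → ∀ x ∈ ball a (r / 2), ‖G x - G a‖ ≤ C * ‖x - a‖ * ‖deriv G a‖ ∧
          ‖deriv G x - deriv G a‖ ≤ C * (‖x - a‖ / r) * ‖deriv G a‖) ∧
      (∀ G : ℂ → ℂ, DifferentiableOn ℂ G (ball 0 1) → InjOn G (ball 0 1) → ∀ b : ℂ, ‖b‖ ≤ q →
        ‖deriv G b‖ ≤ C * ‖deriv G 0‖ ∧ ‖deriv G 0‖ ≤ C * ‖deriv G b‖ ∧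
          ‖G b - G 0‖ ≤ C * ‖deriv G 0‖) := by
  obtain ⟨C1, h1, H1⟩ := hKO1
  obtain ⟨C2, h2, H2⟩ := hKO3 (1 / 2) (by norm_num) (by norm_num)
  obtain ⟨C3, h3, H3⟩ := hKO3 ((1 - q) / 2) (by linarith) (by linarith)
  refine ⟨C1 + C2 + C3, by linarith, ?_, ?_, ?_⟩
  · intro G a r hr hd hi
    refine (ball_subset_ball ?_).trans (H1 G a r hr hd hi)
    apply div_le_div_of_nonneg_left (by positivity) (by linarith) (by linarith)
  · intro G a r hr hd hi x hx
    obtain ⟨-, -, e3, e4⟩ := (H2 G a r hr hd hi).2 x (by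
      rw [show (1 - 1 / 2) * r = r / 2 by ring]
      exact hx)
    refine ⟨e3.trans ?_, e4.trans ?_⟩
    · gcongr
      linarith
    · gcongr
      linarith
  · intro G hd hi b hb
    obtain ⟨e1, e2, e3, -⟩ := (H3 G 0 1 one_pos hd hi).2 b (by
      rw [mem_ball_zero_iff]
      linarith)
    have hC : C3 ≤ C1 + C2 + C3 := by linarith
    refine ⟨e1.trans ?_, e2.trans ?_, e3.trans ?_⟩
    · exact mul_le_mul_of_nonneg_right hC (norm_nonneg _)
    · exact mul_le_mul_of_nonneg_right hC (norm_nonneg _)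
    · rw [sub_zero]
      apply mul_le_mul_of_nonneg_right _ (norm_nonneg _)
      calc C3 * ‖b‖ ≤ C3 * 1 := mul_le_mul_of_nonneg_left (by linarith) (by linarith)
        _ ≤ C1 + C2 + C3 := by linarith

theorem SYM (hINV : INV_stmt) (hKO0 : V3.KO0_stmt) (hKO1 : V3.KO1_stmt) (hKO3 : V3.KO3_stmt) :
    SYM_stmt := by
  intro q η hq0 hq1 hη
  obtain ⟨C, hC1, hK1, hK2, hK3⟩ := SYM_const hKO1 hKO3 q hq0 hq1
  set η₀ : ℝ := min η 1 with hη₀
  have hη₀0 : 0 < η₀ := lt_min hη one_pos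
  have hη₀η : η₀ ≤ η := min_le_left _ _
  have hη₀1 : η₀ ≤ 1 := min_le_right _ _
  have hC0 : 0 < C := by linarith
  have h1q : 0 < 1 - q := by linarith
  have hC6 : 1 ≤ C ^ 6 := one_le_pow₀ hC1
  have hK0 : 1 ≤ 8 * C ^ 6 / (η₀ * (1 - q)) := by
    rw [le_div_iff₀ (by positivity)]
    have : η₀ * (1 - q) ≤ 1 * 1 := mul_le_mul hη₀1 (by linarith) h1q.le zero_le_one
    linarith
  refine ⟨8 * C ^ 6 / (η₀ * (1 - q)), hK0, ?_⟩
  intro F Φ g ω b hF hω hΦd hΦi hgd hFg hb hΦb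
  have hω0 : ω ≠ 0 := by
    rw [← norm_pos_iff, hω]
    exact one_pos
  have hbD : b ∈ ball (0 : ℂ) 1 := by
    rw [mem_ball_zero_iff]
    linarith
  have hgi : InjOn g (ball 0 1) := by
    intro z hz z' hz' h
    apply hΦi hz hz'
    rw [← hFg z hz, ← hFg z' hz', h]
  obtain ⟨k1, k2, k3⟩ := hK3 g hgd hgi b hb
  have hg'b : deriv g b ≠ 0 := hKO0 g (ball 0 1) isOpen_ball hgd hgi b hbD
  have hg'b0 : 0 < ‖deriv g b‖ := norm_pos_iff.2 hg'b
  set p : ℂ := g b with hp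
  set s₀ : ℝ := (1 - q) * ‖deriv g b‖ / C with hs₀
  have hs₀0 : 0 < s₀ := by positivity
  have hballs : ball b (1 - q) ⊆ ball (0 : ℂ) 1 := by
    intro z hz
    rw [mem_ball, dist_eq_norm] at hz
    rw [mem_ball_zero_iff]
    calc ‖z‖ = ‖(z - b) + b‖ := by rw [sub_add_cancel]
      _ ≤ ‖z - b‖ + ‖b‖ := norm_add_le _ _
      _ < 1 := by linarith
  have himg : ball p s₀ ⊆ g '' ball b (1 - q) :=
    hK1 g b (1 - q) h1q (hgd.mono hballs) (hgi.mono hballs)
  have hFi : InjOn F (ball p s₀) := by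
    intro z hz z' hz' h
    obtain ⟨u, hu, rfl⟩ := himg hz
    obtain ⟨u', hu', rfl⟩ := himg hz'
    rw [hFg u (hballs hu), hFg u' (hballs hu')] at h
    rw [hΦi (hballs hu) (hballs hu') h]
  have hFp : F p = 0 := by rw [hp, hFg b hbD, hΦb]
  have hF' : ∀ z ∈ ball p s₀, deriv F z ≠ 0 :=
    hKO0 F (ball p s₀) isOpen_ball hF.differentiableOn hFi
  have hpp : p ∈ ball p s₀ := mem_ball_self hs₀0
  set D1 : ℝ := ‖deriv F p‖ with hD1
  have hD10 : 0 < D1 := norm_pos_iff.2 (hF' p hpp)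
  have hFimg : ball (F p) (s₀ * D1 / C) ⊆ F '' ball p s₀ :=
    hK1 F p s₀ hs₀0 hF.differentiableOn hFi
  set s₁ : ℝ := s₀ / (2 * C ^ 2) with hs₁
  have hs₁0 : 0 < s₁ := by positivity
  have hC2 : 1 ≤ C ^ 2 := one_le_pow₀ hC1
  have hs₁s₀ : s₁ ≤ s₀ / 2 := by
    rw [hs₁]
    apply div_le_div_of_nonneg_left hs₀0.le (by norm_num) (by linarith)
  have hsub1 : ball p s₁ ⊆ ball p s₀ := ball_subset_ball (by linarith)
  have hωF : (fun z => ω * F z) '' ball p s₁ ⊆ F '' ball p s₀ := by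
    rintro _ ⟨z, hz, rfl⟩
    apply hFimg
    rw [hFp, mem_ball_zero_iff, norm_mul, hω, one_mul]
    have hz' : ‖z - p‖ < s₁ := by rwa [mem_ball, dist_eq_norm] at hz
    have e1 := (hK2 F p s₀ hs₀0 hF.differentiableOn hFi z (by
      rw [mem_ball, dist_eq_norm]
      linarith)).1
    rw [hFp, sub_zero] at e1
    have e2 : C * ‖z - p‖ * D1 < C * s₁ * D1 := by
      apply mul_lt_mul_of_pos_right _ hD10
      exact mul_lt_mul_of_pos_left hz' hC0
    have e3 : C * s₁ * D1 = s₀ * D1 / C / 2 := by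
      rw [hs₁]
      field_simp
    have e4 : 0 < s₀ * D1 / C := by positivity
    linarith
  obtain ⟨S, hSd, hSm, hFS⟩ := hINV F (fun z => ω * F z) (ball p s₁) (ball p s₀) isOpen_ball
    isOpen_ball hF.differentiableOn hFi ((hF.const_mul ω).differentiableOn) hωF
  have hSi : InjOn S (ball p s₁) := by
    intro z hz z' hz' h
    have h1 : ω * F z = ω * F z' := by
      rw [← hFS z hz, ← hFS z' hz', h]
    exact hFi (hsub1 hz) (hsub1 hz') (mul_left_cancel₀ hω0 h1)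
  have hp1 : p ∈ ball p s₁ := mem_ball_self hs₁0
  have hSp : S p = p := by
    apply hFi (hSm hp1) hpp
    rw [hFS p hp1, hFp, mul_zero]
  have hSat : ∀ z ∈ ball p s₁, DifferentiableAt ℂ S z := fun z hz =>
    hSd.differentiableAt (isOpen_ball.mem_nhds hz)
  have hS'p : deriv S p = ω := by
    have h1 : HasDerivAt (fun z => F (S z)) (deriv F p * deriv S p) p := by
      have h2 : HasDerivAt F (deriv F p) (S p) := by
        rw [hSp]
        exact (hF p).hasDerivAt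
      exact h2.comp p (hSat p hp1).hasDerivAt
    have h2 : HasDerivAt (fun z => ω * F z) (ω * deriv F p) p := (hF p).hasDerivAt.const_mul ω
    have h3 : (fun z => F (S z)) =ᶠ[𝓝 p] fun z => ω * F z := by
      filter_upwards [isOpen_ball.mem_nhds hp1] with z hz using hFS z hz
    have h4 := (h2.congr_of_eventuallyEq h3).unique h1
    have h5 : deriv F p * ω = deriv F p * deriv S p := by rw [← h4]; ring
    exact (mul_left_cancel₀ (hF' p hpp) h5).symm
  set s : ℝ := s₁ * η₀ / (4 * C) with hs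
  have hs0 : 0 < s := by positivity
  have hss₁ : s ≤ s₁ / 4 := by
    rw [hs, div_le_div_iff₀ (by positivity) (by norm_num)]
    have : s₁ * η₀ ≤ s₁ * C := mul_le_mul_of_nonneg_left (by linarith) hs₁0.le
    linarith
  have hsubs : ball p s ⊆ ball p s₁ := ball_subset_ball (by linarith)
  have hS'η : ∀ z ∈ ball p s, ‖deriv S z - ω‖ ≤ η₀ / 4 := by
    intro z hz
    have hz' : ‖z - p‖ < s := by rwa [mem_ball, dist_eq_norm] at hz
    have e1 := (hK2 S p s₁ hs₁0 hSd hSi z (by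
      rw [mem_ball, dist_eq_norm]
      linarith)).2
    rw [hS'p, hω, mul_one] at e1
    refine e1.trans ?_
    calc C * (‖z - p‖ / s₁) ≤ C * (s / s₁) := by
          apply mul_le_mul_of_nonneg_left _ hC0.le
          exact div_le_div_of_nonneg_right hz'.le hs₁0.le
      _ = η₀ / 4 := by
          rw [hs]
          field_simp
  refine ⟨s, S, hs0, ?_, ?_, hSd.mono hsubs, hSi.mono hsubs, ?_, ?_, ?_⟩
  · -- distance
    rw [norm_sub_rev]
    have e1 : C * ‖deriv g 0‖ ≤ C * (C * ‖deriv g b‖) := mul_le_mul_of_nonneg_left k2 hC0.le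
    have e2 : C * (C * ‖deriv g b‖) = 8 * C ^ 6 / (η₀ * (1 - q)) * s := by
      rw [hs, hs₁, hs₀]
      field_simp
      ring
    linarith
  · -- size
    have e1 : s ≤ s₀ := by linarith
    have e2 : s₀ ≤ ‖deriv g 0‖ := by
      rw [hs₀, div_le_iff₀ hC0]
      calc (1 - q) * ‖deriv g b‖ ≤ 1 * ‖deriv g b‖ :=
            mul_le_mul_of_nonneg_right (by linarith) (norm_nonneg _)
        _ ≤ ‖deriv g 0‖ * C := by linarith
    calc s ≤ ‖deriv g 0‖ := e1.trans e2
      _ = 1 * ‖deriv g 0‖ := (one_mul _).symm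
      _ ≤ 8 * C ^ 6 / (η₀ * (1 - q)) * ‖deriv g 0‖ :=
          mul_le_mul_of_nonneg_right hK0 (norm_nonneg _)
  · -- maps to
    intro z hz
    have hz' : ‖z - p‖ < s := by rwa [mem_ball, dist_eq_norm] at hz
    have hbound : ∀ x ∈ ball p s, ‖deriv S x‖ ≤ 5 / 4 := by
      intro x hx
      have h1 := hS'η x hx
      calc ‖deriv S x‖ = ‖(deriv S x - ω) + ω‖ := by rw [sub_add_cancel]
        _ ≤ ‖deriv S x - ω‖ + ‖ω‖ := norm_add_le _ _
        _ ≤ 5 / 4 := by rw [hω]; linarith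
    have h1 := (convex_ball p s).norm_image_sub_le_of_norm_deriv_le (𝕜 := ℂ)
      (fun x hx => hSat x (hsubs hx)) hbound (mem_ball_self hs0) hz
    rw [hSp] at h1
    rw [mem_ball, dist_eq_norm]
    linarith
  · intro z hz
    exact ⟨hFS z (hsubs hz), (hS'η z hz).trans (by linarith)⟩
  · intro z hz
    apply hF'
    exact ball_subset_ball (by linarith) hz

end EX
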